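import Mathlib
import Pool.Agent.H86.SSep

set_option autoImplicit false

namespace Pool.Agent.Results.MP_67c6ba_gt.RealNotSSep

open TopologicalSpace

/-- The real line is not S-separable. -/
theorem result :
    ∃ (H : Type) (_ : AddCommGroup H) (_ : TopologicalSpace H),
      IsTopologicalAddGroup H ∧ T2Space H ∧
      (∀ K : AddSubgroup H, IsClosed (K : Set H) → SeparableSpace K) ∧
      ∃ L : AddSubgroup (ℝ × H), IsClosed (L : Set (ℝ × H)) ∧ ¬ SeparableSpace L := by
  refine ⟨Pool.Agent.H86.SSep.HH, inferInstance, inferInstance, inferInstance, inferInstance,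
    fun K _ => Pool.Agent.H86.SSep.subgroup_separable K, ?_⟩
  obtain ⟨L, hL, hL'⟩ := Pool.Agent.H86.SSep.exists_nonseparable (Multiplicative ℝ)
    (MonoidHom.id _) continuous_id Function.surjective_id
  exact ⟨⟨⟨⟨L.carrier, fun ha hb => L.mul_mem ha hb⟩, L.one_mem⟩, fun ha => L.inv_mem ha⟩, hL, hL'⟩

end Pool.Agent.Results.MP_67c6ba_gt.RealNotSSep
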